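import Pool.Agent.W525.CB.Stm

/-! CB-HOM: local homomorphisms of local rings. -/

open AlgebraicGeometry CategoryTheory Order

namespace Pool.Agent.W899.CB.HOM

open Pool.Agent.H187R3 Pool.Agent.W525.CB

lemma functionFieldMap_algebraMap {W X : Scheme.{0}} [IsIntegral W] [IsIntegral X] (f : W ⟶ X)
    [IsDominant f] (w : W) (a : X.presheaf.stalk (f w)) :
    functionFieldMap f (algebraMap _ X.functionField a) =
      algebraMap (W.presheaf.stalk w) W.functionField ((f.stalkMap w).hom a) := by
  have hw : genericPoint W ⤳ w := (genericPoint_spec W).specializes trivial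
  have h1 := Scheme.Hom.stalkSpecializes_stalkMap f (genericPoint W) w hw
  have h2 := TopCat.Presheaf.stalkSpecializes_comp (X := X) X.presheaf
    (specializes_of_isDominant f) ((genericPoint_spec X).specializes (y := f w) trivial)
  have h3 : X.presheaf.stalkSpecializes ((genericPoint_spec X).specializes (y := f w) trivial) ≫
      X.presheaf.stalkSpecializes (specializes_of_isDominant f) ≫ f.stalkMap (genericPoint W) =
      f.stalkMap w ≫ W.presheaf.stalkSpecializes hw := by
    rw [← Category.assoc, h2, ← h1]
  have h4 := congrArg (fun g => g.hom a) h3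
  exact h4

theorem main : S_HOM := by
  intro X Z _ _ h _ E _ κX κZ hκ x
  have h1 : ∀ a : Z.presheaf.stalk (h x), κZ (algebraMap _ Z.functionField a) =
      κX (algebraMap (X.presheaf.stalk x) X.functionField ((h.stalkMap x).hom a)) := by
    intro a
    rw [← hκ, functionFieldMap_algebraMap]
  constructor
  · rintro e ⟨a, rfl⟩
    exact ⟨(h.stalkMap x).hom a, (h1 a).symm⟩
  · rintro e ⟨a, rfl⟩ ⟨b, hb⟩
    rw [RingHom.comp_apply] at hb ⊢
    rw [RingHom.comp_apply] at hb
    by_cases h0 : κZ (algebraMap (Z.presheaf.stalk (h x)) Z.functionField a) = 0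
    · rw [h0, inv_zero]
      exact Subring.zero_mem _
    · have h2 : κX (algebraMap (X.presheaf.stalk x) X.functionField
          ((h.stalkMap x).hom a * b)) = 1 := by
        rw [map_mul, map_mul, ← h1, hb, mul_inv_cancel₀ h0]
      have h3 : (h.stalkMap x).hom a * b = 1 := by
        apply IsFractionRing.injective (X.presheaf.stalk x) X.functionField
        apply κX.injective
        rw [h2, map_one, map_one]
      have h4 : IsUnit ((h.stalkMap x).hom a) := IsUnit.of_mul_eq_one _ h3
      have h5 : IsUnit a := isUnit_of_map_unit (h.stalkMap x).hom a h4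
      obtain ⟨c, hc⟩ := h5.exists_right_inv
      refine ⟨c, ?_⟩
      rw [RingHom.comp_apply]
      apply eq_inv_of_mul_eq_one_right
      rw [← map_mul, ← map_mul, hc, map_one, map_one]

end Pool.Agent.W899.CB.HOM
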